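import Pool.Agent.Helper18.NF.Stmts

/-!
# Theorem C up to the final step
-/

set_option autoImplicit false

namespace Pool.Agent.Helper18.NF

open Pool.Agent.Helper14.BSC Polynomial

/-- Theorem C up to the final step. -/
theorem st_DYC (h1 : ST_DLB) (h2 : ST_NRG) (h3 : ST_RTF) (h4 : ST_PUL) : ST_DYC := by
  intro k Ω _ _ _ _ _ D A B hd f hf hb
  obtain ⟨i0, hi0⟩ := h2 k Ω D A B hd f hf hb
  have hF : NC D ((dl A B)^[i0] f) := ((h1 k Ω D).2 A B hd).1 f hf i0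
  obtain ⟨G, hG, hroot⟩ := h3 k Ω D A B hd _ hF hi0
  obtain ⟨G', hG', hpul⟩ := h4 k A B hd G hG i0
  refine ⟨G', hG', ?_⟩
  intro p _ σ hσ P hfC
  have hRt : Rt P ((dl A B)^[i0] f) G := by
    rintro z ⟨hz, rfl⟩
    exact hroot p σ hσ P hz
  exact hpul Ω D f hf p σ P hRt _ ⟨hfC, rfl⟩

end Pool.Agent.Helper18.NF
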