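import Pool.Agent.Helper18.NF.Stmts

/-!
# Systems of all embeddings come from embeddings into the algebraic closure of the rationals
-/

set_option autoImplicit false

namespace Pool.Agent.Helper18.NF

open Pool.Agent.Helper14.BSC Polynomial

/-- an algebraic element is in the image of an embedding of the algebraic closure -/
theorem tsq_mem {L : Type} [Field L] [CharZero L] (j : AlgebraicClosure ℚ →+* L) (x : L)
    (hx : IsIntegral ℚ x) : ∃ y, j y = x := by
  let _ : Algebra (AlgebraicClosure ℚ) L := j.toAlgebra
  have ht : IsScalarTower ℚ (AlgebraicClosure ℚ) L := by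
    refine IsScalarTower.of_algebraMap_eq' ?_
    exact RingHom.ext_rat _ _
  have h1 : IsIntegral (AlgebraicClosure ℚ) x := hx.tower_top
  have h2 : (minpoly (AlgebraicClosure ℚ) x).degree = 1 :=
    IsAlgClosed.degree_eq_one_of_irreducible _ (minpoly.irreducible h1)
  obtain ⟨y, hy⟩ := minpoly.mem_range_of_degree_eq_one _ _ h2
  exact ⟨y, hy⟩

/-- factorization of an embedding -/
theorem tsq_fac {k L : Type} [Field k] [NumberField k] [Field L] [CharZero L]
    (j : AlgebraicClosure ℚ →+* L) (σ : k →+* L) : ∃ τ : k →+* AlgebraicClosure ℚ, σ = j.comp τ := by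
  have h : ∀ x : k, ∃ y, j y = σ x := by
    intro x
    apply tsq_mem
    have h1 : IsIntegral ℚ x := Algebra.IsIntegral.isIntegral x
    have h2 := h1.map (σ.toRatAlgHom)
    exact h2
  choose g hg using h
  refine ⟨{ toFun := g, map_one' := ?_, map_mul' := ?_, map_zero' := ?_, map_add' := ?_ }, ?_⟩
  · exact j.injective (by rw [hg, map_one, map_one])
  · intro x y
    exact j.injective (by rw [map_mul, hg, hg, hg, map_mul])
  · exact j.injective (by rw [hg, map_zero, map_zero])
  · intro x y
    exact j.injective (by rw [map_add, hg, hg, hg, map_add])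
  · refine RingHom.ext fun x => ?_
    exact (hg x).symm

/-- Systems of all embeddings come from embeddings into the algebraic closure of the rationals. -/
theorem st_TSQ : ST_TSQ := by
  intro k _ _ p _ T
  have h0 : Algebra.IsAlgebraic ℚ (AlgebraicClosure ℚ) := AlgebraicClosure.isAlgebraic ℚ
  let j : AlgebraicClosure ℚ →+* ℂ_[p] :=
    (IsAlgClosed.lift : AlgebraicClosure ℚ →ₐ[ℚ] ℂ_[p]).toRingHom
  have h := fun i => tsq_fac j (T.σ i)
  choose t ht using h
  let e : Fin T.n ≃ Fin (Module.finrank ℚ k) := finCongr T.deg
  refine ⟨j, fun i => t (e.symm i), e, fun i => ?_⟩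
  show T.σ i = j.comp (t (e.symm (e i)))
  rw [Equiv.symm_apply_apply]
  exact ht i

end Pool.Agent.Helper18.NF
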